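import Pool.Agent.W2helper32.LP.Stm

/-!
# Inversion of a disk packing in a far point
-/

set_option autoImplicit false

namespace Pool.Agent.W2helper92.LP

open Pool.Agent.W2helper32.LP Filter

theorem quart {α β γ δ : ℝ} (h : ¬ (α = 0 ∧ β = 0 ∧ γ = 0)) :
    ∀ᶠ t : ℝ in atTop, α * t ^ 4 + β * t ^ 2 + γ * t + δ ≠ 0 := by
  have hP : (Polynomial.C α * Polynomial.X ^ 4 + Polynomial.C β * Polynomial.X ^ 2 +
      Polynomial.C γ * Polynomial.X + Polynomial.C δ : Polynomial ℝ) ≠ 0 := by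
    intro h0
    apply h
    have h4 := congrArg (fun p => Polynomial.coeff p 4) h0
    have h2 := congrArg (fun p => Polynomial.coeff p 2) h0
    have h1 := congrArg (fun p => Polynomial.coeff p 1) h0
    simp [Polynomial.coeff_X, Polynomial.coeff_C, Polynomial.coeff_X_pow] at h4 h2 h1
    exact ⟨h4, h2, h1⟩
  filter_upwards [Polynomial.eventually_atTop_not_isRoot _ hP] with t ht
  simpa [Polynomial.IsRoot] using ht

theorem sqgt {s r q : ℝ} (hr : 0 < r) (hq : 0 < q) (h : q + r ≤ s) : 0 < s ^ 2 - r ^ 2 := by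
  have h1 : 0 < (s - r) * (s + r) := mul_pos (by linarith) (by linarith)
  linarith

theorem key {u1 u2 v1 v2 ri rj rk : ℝ} (hi : 0 < ri) (hj : 0 < rj) (hk : 0 < rk)
    (huv : u1 * v2 - v1 * u2 = 0) (hij : (ri + rj) ^ 2 ≤ u1 ^ 2 + u2 ^ 2)
    (hik : (ri + rk) ^ 2 ≤ v1 ^ 2 + v2 ^ 2) (hjk : (rj + rk) ^ 2 ≤ (u1 - v1) ^ 2 + (u2 - v2) ^ 2)
    (hW1 : (v1 ^ 2 + v2 ^ 2 - rk ^ 2 + ri ^ 2) * u1 - (u1 ^ 2 + u2 ^ 2 - rj ^ 2 + ri ^ 2) * v1 = 0)
    (hW2 : (v1 ^ 2 + v2 ^ 2 - rk ^ 2 + ri ^ 2) * u2 - (u1 ^ 2 + u2 ^ 2 - rj ^ 2 + ri ^ 2) * v2 = 0) :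
    False := by
  obtain ⟨a, ha0, ha2⟩ : ∃ a : ℝ, 0 ≤ a ∧ a ^ 2 = u1 ^ 2 + u2 ^ 2 :=
    ⟨√(u1 ^ 2 + u2 ^ 2), Real.sqrt_nonneg _, Real.sq_sqrt (by positivity)⟩
  obtain ⟨b, hb0, hb2⟩ : ∃ b : ℝ, 0 ≤ b ∧ b ^ 2 = v1 ^ 2 + v2 ^ 2 :=
    ⟨√(v1 ^ 2 + v2 ^ 2), Real.sqrt_nonneg _, Real.sq_sqrt (by positivity)⟩
  have ha : ri + rj ≤ a := by
    rw [← ha2] at hij
    exact (sq_le_sq₀ (by positivity) ha0).1 hij
  have hb : ri + rk ≤ b := by
    rw [← hb2] at hik
    exact (sq_le_sq₀ (by positivity) hb0).1 hik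
  have hdot : (u1 * v1 + u2 * v2) ^ 2 = (a * b) ^ 2 := by
    rw [mul_pow, ha2, hb2]
    linear_combination -(u1 * v2 - v1 * u2) * huv
  have hWu : (b ^ 2 - rk ^ 2 + ri ^ 2) * a ^ 2 - (a ^ 2 - rj ^ 2 + ri ^ 2) * (u1 * v1 + u2 * v2) = 0 := by
    rw [ha2, hb2]
    linear_combination u1 * hW1 + u2 * hW2
  have h1 : (u1 - v1) ^ 2 + (u2 - v2) ^ 2 = a ^ 2 + b ^ 2 - 2 * (u1 * v1 + u2 * v2) := by
    rw [ha2, hb2]
    ring
  rw [h1] at hjk
  have hapos : 0 < a := by linarith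
  have hbpos : 0 < b := by linarith
  rcases sq_eq_sq_iff_eq_or_eq_neg.1 hdot with h | h
  · rw [h] at hjk hWu
    have h2 : a * ((b ^ 2 - rk ^ 2 + ri ^ 2) * a - (a ^ 2 - rj ^ 2 + ri ^ 2) * b) = 0 := by
      linear_combination hWu
    have h3 := (mul_eq_zero.1 h2).resolve_left hapos.ne'
    rcases le_total a b with hab | hab
    · have h4 : rj + rk ≤ b - a := by
        apply (sq_le_sq₀ (by positivity) (sub_nonneg.2 hab)).1
        linarith
      have e1 : 0 < a * ((b - a) ^ 2 - rk ^ 2) := mul_pos hapos (sqgt hk hj h4)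
      have e2 : 0 < (b - a) * (a ^ 2 - ri ^ 2) :=
        mul_pos (by linarith) (sqgt hi hj (by linarith))
      have e3 : 0 < b * rj ^ 2 := by positivity
      linarith
    · have h4 : rj + rk ≤ a - b := by
        apply (sq_le_sq₀ (by positivity) (sub_nonneg.2 hab)).1
        linarith
      have e1 : 0 < b * ((a - b) ^ 2 - rj ^ 2) := mul_pos hbpos (sqgt hj hk (by linarith))
      have e2 : 0 < (a - b) * (b ^ 2 - ri ^ 2) :=
        mul_pos (by linarith) (sqgt hi hk (by linarith))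
      have e3 : 0 < a * rk ^ 2 := by positivity
      linarith
  · rw [h] at hWu
    have e1 : 0 < (b ^ 2 - rk ^ 2 + ri ^ 2) * a ^ 2 := by
      have h5 := sqgt hk hi hb
      exact mul_pos (add_pos h5 (by positivity)) (by positivity)
    have e2 : 0 < (a ^ 2 - rj ^ 2 + ri ^ 2) * (a * b) := by
      have h5 := sqgt hj hi ha
      exact mul_pos (add_pos h5 (by positivity)) (by positivity)
    linarith

/-- **INV.** -/
theorem p_inv : P_INV := by
  intro V _ G x y r h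
  obtain ⟨hr, hp⟩ := h
  have h1 : ∀ᶠ t : ℝ in atTop, ∀ i, x i + r i < t := eventually_all.2 fun i => eventually_gt_atTop _
  let W1 : V → V → V → ℝ := fun i j k =>
    ((x k - x i) ^ 2 + (y k - y i) ^ 2 - r k ^ 2 + r i ^ 2) * (x j - x i) -
      ((x j - x i) ^ 2 + (y j - y i) ^ 2 - r j ^ 2 + r i ^ 2) * (x k - x i)
  let W2 : V → V → V → ℝ := fun i j k =>
    ((x k - x i) ^ 2 + (y k - y i) ^ 2 - r k ^ 2 + r i ^ 2) * (y j - y i) -
      ((x j - x i) ^ 2 + (y j - y i) ^ 2 - r j ^ 2 + r i ^ 2) * (y k - y i)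
  have h2 : ∀ᶠ t : ℝ in atTop, ∀ i j k, i ≠ j → j ≠ k → i ≠ k →
      -(ori x y i j k) * t ^ 4 + (W1 i j k - ori x y i j k * (1 - 2 * y i)) * t ^ 2 +
        (2 * x i * ori x y i j k - W2 i j k) * t +
        (x i * W2 i j k - y i * W1 i j k - ori x y i j k * (x i ^ 2 + y i ^ 2 + r i ^ 2)) ≠ 0 := by
    refine eventually_all.2 fun i => eventually_all.2 fun j => eventually_all.2 fun k => ?_
    by_cases hd : i ≠ j ∧ j ≠ k ∧ i ≠ k
    · obtain ⟨hij, hjk, hik⟩ := hd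
      have h3 : ¬ (-(ori x y i j k) = 0 ∧ W1 i j k - ori x y i j k * (1 - 2 * y i) = 0 ∧
          2 * x i * ori x y i j k - W2 i j k = 0) := by
        rintro ⟨ho, hw1, hw2⟩
        rw [neg_eq_zero] at ho
        rw [ho, zero_mul, sub_zero] at hw1
        rw [ho, mul_zero, zero_sub, neg_eq_zero] at hw2
        refine key (hr i) (hr j) (hr k) (u1 := x j - x i) (u2 := y j - y i) (v1 := x k - x i)
          (v2 := y k - y i) ho ?_ ?_ ?_ hw1 hw2
        · have := (hp i j hij).1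
          nlinarith
        · have := (hp i k hik).1
          nlinarith
        · have := (hp j k hjk).1
          nlinarith
      filter_upwards [quart h3] with t ht _ _ _
      exact ht
    · exact Eventually.of_forall fun t a b c => absurd ⟨a, b, c⟩ hd
  obtain ⟨t, ht1, ht2⟩ := (h1.and h2).exists
  have hP : ∀ i, 0 < (x i - t) ^ 2 + (y i - t ^ 2) ^ 2 - r i ^ 2 := by
    intro i
    have := ht1 i
    have := hr i
    nlinarith [sq_nonneg (y i - t ^ 2)]
  generalize hPd : (fun i => (x i - t) ^ 2 + (y i - t ^ 2) ^ 2 - r i ^ 2) = P at *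
  have hPi : ∀ i, P i = (x i - t) ^ 2 + (y i - t ^ 2) ^ 2 - r i ^ 2 := fun i => by rw [← hPd]
  have hP0 : ∀ i, 0 < P i := fun i => by
    rw [hPi]
    exact hP i
  have hne : ∀ i, P i ≠ 0 := fun i => (hP0 i).ne'
  have hdist : ∀ u v, ((x u - t) / P u - (x v - t) / P v) ^ 2 +
      ((y u - t ^ 2) / P u - (y v - t ^ 2) / P v) ^ 2 - (r u / P u + r v / P v) ^ 2 =
      ((x u - x v) ^ 2 + (y u - y v) ^ 2 - (r u + r v) ^ 2) / (P u * P v) := by
    intro u v
    have h3 := hne u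
    have h4 := hne v
    have h5 : ((x u - t) / P u - (x v - t) / P v) ^ 2 +
        ((y u - t ^ 2) / P u - (y v - t ^ 2) / P v) ^ 2 - (r u / P u + r v / P v) ^ 2 =
        (((x u - t) ^ 2 + (y u - t ^ 2) ^ 2 - r u ^ 2) * P v ^ 2 +
          ((x v - t) ^ 2 + (y v - t ^ 2) ^ 2 - r v ^ 2) * P u ^ 2 -
          2 * ((x u - t) * (x v - t) + (y u - t ^ 2) * (y v - t ^ 2) + r u * r v) * P u * P v) /
          (P u * P v) ^ 2 := by
      field_simp
      ring
    rw [h5, ← hPi, ← hPi, div_eq_div_iff (by positivity) (by positivity)]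
    have h6 : (x u - x v) ^ 2 + (y u - y v) ^ 2 - (r u + r v) ^ 2 = P u + P v -
        2 * ((x u - t) * (x v - t) + (y u - t ^ 2) * (y v - t ^ 2) + r u * r v) := by
      rw [hPi, hPi]
      ring
    rw [h6]
    ring
  refine ⟨fun i => (x i - t) / P i, fun i => (y i - t ^ 2) / P i, fun i => r i / P i,
    ⟨fun v => div_pos (hr v) (hP0 v), fun u v huv => ?_⟩, ?_⟩
  · obtain ⟨h3, h4⟩ := hp u v huv
    have h5 := hdist u v
    have h6 : 0 < P u * P v := mul_pos (hP0 u) (hP0 v)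
    constructor
    · have h7 : 0 ≤ ((x u - x v) ^ 2 + (y u - y v) ^ 2 - (r u + r v) ^ 2) / (P u * P v) :=
        div_nonneg (sub_nonneg.2 h3) h6.le
      rw [← h5] at h7
      exact sub_nonneg.1 h7
    · rw [h4, ← sub_eq_zero, ← sub_eq_zero (a := ((x u - t) / P u - (x v - t) / P v) ^ 2 +
        ((y u - t ^ 2) / P u - (y v - t ^ 2) / P v) ^ 2), h5, div_eq_zero_iff, or_iff_left h6.ne']
  · intro i j k hij hjk hik h0
    apply ht2 i j k hij hjk hik
    have h3 := hne i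
    have h4 := hne j
    have h5 := hne k
    have h6 : ori (fun i => (x i - t) / P i) (fun i => (y i - t ^ 2) / P i) i j k *
        (P i * P j * P k) =
        P k * ((x i - t) * (y j - t ^ 2) - (x j - t) * (y i - t ^ 2)) +
        P i * ((x j - t) * (y k - t ^ 2) - (x k - t) * (y j - t ^ 2)) +
        P j * ((x k - t) * (y i - t ^ 2) - (x i - t) * (y k - t ^ 2)) := by
      unfold ori
      field_simp
      ring
    rw [h0, zero_mul, hPi, hPi, hPi] at h6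
    rw [h6]
    simp only [W1, W2, ori]
    ring

end Pool.Agent.W2helper92.LP
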